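import Pool.Agent.H257R3.SI.Stubs

set_option autoImplicit false

/-!
# A15: choice of the parameters
-/

namespace Pool.Agent.Helper355R3

open Pool.Agent.H257R3.SI Real

theorem a15_bad (N T m K : ℕ) (ρ c : ℝ) (hρ : 0 < ρ) (hN : 2 ≤ N) (hm : m ≤ N)
    (hc0 : 0 < c) (hc1 : c ≤ 1 / 20) (hc2 : c ≤ ρ / 20) (hlog : Real.log N ≤ c * T)
    (hT : 1 ≤ T) (hK : (K : ℝ) ≤ T / (4 * ρ ^ 2)) :
    (m : ℝ) ^ 2 * ((1 / 2) ^ T * Real.exp (ρ ^ 2 * K)) ≤ ρ / 4 := by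
  have hT0 : (1 : ℝ) ≤ T := by exact_mod_cast hT
  have hNpos : (0 : ℝ) < N := by exact_mod_cast (by omega : 0 < N)
  have hmN : (m : ℝ) ≤ N := by exact_mod_cast hm
  have h1 : (m : ℝ) ^ 2 ≤ Real.exp (T / 10) := by
    calc (m : ℝ) ^ 2 ≤ (N : ℝ) ^ 2 := by gcongr
      _ = Real.exp (2 * Real.log N) := by
        rw [mul_comm, Real.exp_mul, Real.exp_log hNpos]
        norm_num
      _ ≤ Real.exp (T / 10) := by
        apply Real.exp_le_exp.2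
        nlinarith
  have hl2 : (0.69 : ℝ) ≤ Real.log 2 := by
    have := Real.log_two_gt_d9
    linarith
  have h2 : ((1 : ℝ) / 2) ^ T ≤ Real.exp (-(0.69 * T)) := by
    have e : ((1 : ℝ) / 2) ^ T = Real.exp (-(Real.log 2 * T)) := by
      rw [neg_mul_eq_neg_mul, Real.exp_mul, Real.exp_neg, Real.exp_log (by norm_num),
        Real.rpow_natCast]
      norm_num
    rw [e]
    apply Real.exp_le_exp.2
    nlinarith
  have h3 : Real.exp (ρ ^ 2 * K) ≤ Real.exp (T / 4) := by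
    apply Real.exp_le_exp.2
    have : ρ ^ 2 * K ≤ ρ ^ 2 * (T / (4 * ρ ^ 2)) := by gcongr
    calc ρ ^ 2 * K ≤ ρ ^ 2 * (T / (4 * ρ ^ 2)) := this
      _ = T / 4 := by field_simp
  have h4 : (m : ℝ) ^ 2 * ((1 / 2) ^ T * Real.exp (ρ ^ 2 * K)) ≤ Real.exp (-(0.3 * T)) := by
    calc (m : ℝ) ^ 2 * ((1 / 2) ^ T * Real.exp (ρ ^ 2 * K))
        ≤ Real.exp (T / 10) * (Real.exp (-(0.69 * T)) * Real.exp (T / 4)) := by gcongr
      _ = Real.exp (T / 10 + (-(0.69 * T) + T / 4)) := by rw [Real.exp_add, Real.exp_add]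
      _ ≤ Real.exp (-(0.3 * T)) := by
        apply Real.exp_le_exp.2
        nlinarith
  have h5 : 13.8 / ρ ≤ (T : ℝ) := by
    have h6 : Real.log 2 ≤ Real.log N := Real.log_le_log (by norm_num) (by exact_mod_cast hN)
    have h7 : (0.69 : ℝ) ≤ c * T := by linarith
    have h8 : (0.69 : ℝ) ≤ ρ / 20 * T := h7.trans (by gcongr)
    rw [div_le_iff₀ hρ]
    linarith
  have h9 : 4 / ρ ≤ 0.3 * (T : ℝ) := by
    have : 4 / ρ ≤ 0.3 * (13.8 / ρ) := by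
      rw [mul_div_assoc', div_le_div_iff_of_pos_right hρ]
      norm_num
    linarith
  calc (m : ℝ) ^ 2 * ((1 / 2) ^ T * Real.exp (ρ ^ 2 * K)) ≤ Real.exp (-(0.3 * T)) := h4
    _ ≤ Real.exp (-(4 / ρ)) := Real.exp_le_exp.2 (by linarith)
    _ = (Real.exp (4 / ρ))⁻¹ := Real.exp_neg _
    _ ≤ (4 / ρ)⁻¹ := by
      apply inv_anti₀ (by positivity)
      have := Real.add_one_le_exp (4 / ρ)
      linarith
    _ = ρ / 4 := by rw [inv_div]

theorem a15 (h13 : St_A13) (h14 : St_A14) : St_A15 := by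
  intro C δ hC hδ hδ2
  set ρ : ℝ := δ / (1536 * C) with hρdef
  have hC0 : (0 : ℝ) < C := by linarith
  have hρ : 0 < ρ := by positivity
  have hCρ : C * ρ = δ / 1536 := by
    rw [hρdef]
    field_simp
  have hρ1 : ρ ≤ 1 / 3072 := by
    have : 1 * ρ ≤ C * ρ := by gcongr
    linarith
  have hlog : 0 ≤ Real.log (8 / ρ) := by
    apply Real.log_nonneg
    rw [le_div_iff₀ hρ]
    linarith
  have hc1 : 24 / ρ ^ 3 ≤ c1 ρ := by
    unfold c1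
    gcongr
    nlinarith
  have hc1pos : 0 < c1 ρ := lt_of_lt_of_le (by positivity) hc1
  set c : ℝ := δ * ρ ^ 2 / (8 * c1 ρ) with hcdef
  have hc : 0 < c := by positivity
  have hcρ : c ≤ ρ ^ 5 / 384 := by
    rw [hcdef, div_le_iff₀ (by positivity)]
    calc δ * ρ ^ 2 ≤ 1 / 2 * ρ ^ 2 := by gcongr
      _ = ρ ^ 5 / 384 * (8 * (24 / ρ ^ 3)) := by field_simp; norm_num
      _ ≤ ρ ^ 5 / 384 * (8 * c1 ρ) := by gcongr
  have hρ2 : ρ ^ 2 ≤ ρ := by nlinarith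
  have hρ5 : ρ ^ 5 ≤ ρ ^ 2 := pow_le_pow_of_le_one hρ.le (by linarith) (by norm_num)
  have hc20 : c ≤ ρ / 20 := by linarith
  have hc201 : c ≤ 1 / 20 := by linarith
  have hc2 : c ≤ 2 * ρ ^ 2 := by nlinarith [sq_nonneg ρ]
  refine ⟨c, hc, fun N T hT hlogN hTN => ?_⟩
  have hT0 : (1 : ℝ) ≤ T := by exact_mod_cast hT
  have hNpos : (0 : ℝ) < N := by
    by_contra h
    nlinarith
  have hN2 : 2 ≤ N := by
    have : (20 : ℝ) ≤ N := by nlinarith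
    have : 20 ≤ N := by exact_mod_cast this
    omega
  -- K
  set K : ℕ := ⌊(T : ℝ) / (4 * ρ ^ 2)⌋₊ with hKdef
  have hρsq : 0 < ρ ^ 2 := by positivity
  have hKle : (K : ℝ) ≤ T / (4 * ρ ^ 2) := Nat.floor_le (by positivity)
  have hTbig : 1 ≤ (T : ℝ) / (8 * ρ ^ 2) := by
    rw [le_div_iff₀ (by positivity)]
    nlinarith
  have hKge : (T : ℝ) / (8 * ρ ^ 2) ≤ K := by
    have h1 : (T : ℝ) / (4 * ρ ^ 2) < K + 1 := Nat.lt_floor_add_one _
    have h2 : (T : ℝ) / (4 * ρ ^ 2) = T / (8 * ρ ^ 2) + T / (8 * ρ ^ 2) := by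
      field_simp
      norm_num
    linarith
  have hKpos : (0 : ℝ) < K := by linarith
  have hK1 : 0 < K := by exact_mod_cast hKpos
  have h2K : 2 * (K : ℝ) ≤ N := by
    have h1 : 2 * (T / (4 * ρ ^ 2)) ≤ (N : ℝ) := by
      have h2 : (T : ℝ) ≤ 2 * ρ ^ 2 * N := hTN.trans (by gcongr)
      rw [mul_div_assoc', div_le_iff₀ (by positivity)]
      linarith
    linarith
  have h2K' : 2 * K ≤ N := by exact_mod_cast h2K
  -- m
  set m : ℕ := N / (2 * K) with hmdef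
  have hmK : m * (2 * K) ≤ N := Nat.div_mul_le_self _ _
  have hm1 : 1 ≤ m := (Nat.one_le_div_iff (by omega)).2 h2K'
  have hmge : (N : ℝ) ≤ 4 * K * m := by
    have h1 : N < (m + 1) * (2 * K) := by
      have := Nat.lt_div_mul_add (a := N) (b := 2 * K) (by omega)
      rw [← hmdef] at this
      linarith
    have h2 : N ≤ 4 * K * m := by nlinarith
    exact_mod_cast h2
  have hmN : m ≤ N := Nat.div_le_self _ _
  refine ⟨m, hmN, fun s t ht Ω _ p D hS => ?_⟩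
  have hbad := (h13 m K T ρ hρ.le (by linarith)).trans
    (a15_bad N T m K ρ c hρ hN2 hmN hc hc201 hc20 hlogN hT hKle)
  have hmain := h14 m K N T s t δ ρ (by omega) (by nlinarith) hT hδ hρ (by linarith) Ω p D hS
  set B := Pr ρ {F : Vx m K → Bool | ∃ i j, T <
    (Finset.univ.filter fun u => F (.inl (i, u)) = true ∧ F (.inr (j, u)) = true).card} with hB
  have hm0 : (0 : ℝ) < m := by exact_mod_cast hm1
  have hX : 0 < (m : ℝ) ^ 2 * K := by positivity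
  have h1 : ρ / 2 ≤ ρ * (1 - ρ) - B := by
    have hq : ρ * ρ ≤ ρ * (1 / 4) := mul_le_mul_of_nonneg_left (by linarith) hρ.le
    have hq2 : ρ * (1 - ρ) = ρ - ρ * ρ := by ring
    rw [hq2]
    linarith
  have h2 : δ * ρ * ((m : ℝ) ^ 2 * K) ≤ 2 * δ * ((m : ℝ) ^ 2 * K) * (ρ * (1 - ρ) - B) := by
    calc δ * ρ * ((m : ℝ) ^ 2 * K) = 2 * δ * ((m : ℝ) ^ 2 * K) * (ρ / 2) := by ring
      _ ≤ _ := by gcongr
  have hT8 : (T : ℝ) ≤ 8 * ρ ^ 2 * K := by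
    rw [div_le_iff₀ (by positivity)] at hKge
    linarith
  have h3 : 96 * (m : ℝ) ^ 2 * t ≤ δ * ρ * ((m : ℝ) ^ 2 * K) / 2 := by
    calc 96 * (m : ℝ) ^ 2 * t ≤ 96 * (m : ℝ) ^ 2 * (C * (8 * ρ ^ 2 * K)) := by
          gcongr
          exact ht.trans (by gcongr)
      _ = 768 * (C * ρ) * (ρ * ((m : ℝ) ^ 2 * K)) := by ring
      _ = _ := by rw [hCρ]; ring
  have h4 : δ * ρ * ((m : ℝ) ^ 2 * K) / 2 ≤ s * (ρ * c1 ρ) := by linarith
  have h5 : δ * ((m : ℝ) ^ 2 * K) / (2 * c1 ρ) ≤ s := by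
    rw [div_le_iff₀ (by positivity)]
    have : ρ * (δ * ((m : ℝ) ^ 2 * K)) ≤ ρ * (s * (2 * c1 ρ)) := by linarith
    exact le_of_mul_le_mul_left this hρ
  refine le_trans ?_ h5
  -- c N^2 / T ≤ δ m^2 K / (2 c1)
  have h6 : (N : ℝ) ^ 2 ≤ 16 * K * ((m : ℝ) ^ 2 * K) := by
    calc (N : ℝ) ^ 2 ≤ (4 * K * m) ^ 2 := by gcongr
      _ = _ := by ring
  have h7 : (K : ℝ) * (4 * ρ ^ 2) ≤ T := by
    rwa [le_div_iff₀ (by positivity)] at hKle
  rw [hcdef, div_mul_div_comm, div_le_div_iff₀ (by positivity) (by positivity)]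
  calc δ * ρ ^ 2 * (N : ℝ) ^ 2 * (2 * c1 ρ)
      ≤ δ * ρ ^ 2 * (16 * K * ((m : ℝ) ^ 2 * K)) * (2 * c1 ρ) := by gcongr
    _ = δ * ((m : ℝ) ^ 2 * K) * (8 * c1 ρ * (K * (4 * ρ ^ 2))) := by ring
    _ ≤ δ * ((m : ℝ) ^ 2 * K) * (8 * c1 ρ * T) := by gcongr

end Pool.Agent.Helper355R3
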